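import Pool.Agent.Helper40.MR.Defs

set_option autoImplicit false

/-! # H3: passage to the weighted mean squares -/

open Finset MeasureTheory
open scoped BigOperators Nat

namespace Pool.Agent.Helper40.MR

theorem h3_meas (c : ℕ → ℂ) : Measurable fun u : ℝ => ∑ n ∈ Icc 1 ⌊u⌋₊, c n :=
  (measurable_from_nat (f := fun m => ∑ n ∈ Icc 1 m, c n)).comp Nat.measurable_floor

theorem h3_Sg (g : ℕ → ℂ) (hg : ∀ n, ‖g n‖ ≤ 1) (u : ℝ) (hu : 0 ≤ u) : ‖Sg g u‖ ≤ u := by
  unfold Sg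
  calc ‖∑ n ∈ Icc 1 ⌊u⌋₊, g n‖ ≤ ∑ n ∈ Icc 1 ⌊u⌋₊, ‖g n‖ := norm_sum_le _ _
    _ ≤ ∑ n ∈ Icc 1 ⌊u⌋₊, (1 : ℝ) := Finset.sum_le_sum fun n _ => hg n
    _ = ⌊u⌋₊ := by simp
    _ ≤ u := Nat.floor_le hu

theorem h3_S1g (g : ℕ → ℂ) (hg : ∀ n, ‖g n‖ ≤ 1) (u : ℝ) (hu : 1 ≤ u) :
    ‖S1g g u‖ ≤ u * Real.log u := by
  unfold S1g
  have hl : 0 ≤ Real.log u := Real.log_nonneg hu
  calc ‖∑ n ∈ Icc 1 ⌊u⌋₊, g n * (Real.log n : ℂ)‖
      ≤ ∑ n ∈ Icc 1 ⌊u⌋₊, ‖g n * (Real.log n : ℂ)‖ := norm_sum_le _ _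
    _ ≤ ∑ n ∈ Icc 1 ⌊u⌋₊, Real.log u := by
        apply Finset.sum_le_sum
        intro n hn
        rw [Finset.mem_Icc] at hn
        have hn1 : (1 : ℝ) ≤ n := by exact_mod_cast hn.1
        have hnu : (n : ℝ) ≤ u := (Nat.le_floor_iff (by linarith)).1 hn.2
        rw [norm_mul, Complex.norm_real, Real.norm_eq_abs, abs_of_nonneg (Real.log_nonneg hn1)]
        calc ‖g n‖ * Real.log n ≤ 1 * Real.log n :=
              mul_le_mul_of_nonneg_right (hg n) (Real.log_nonneg hn1)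
          _ ≤ Real.log u := by
              rw [one_mul]
              exact Real.log_le_log (by linarith) hnu
    _ = ⌊u⌋₊ * Real.log u := by simp
    _ ≤ u * Real.log u := mul_le_mul_of_nonneg_right (Nat.floor_le (by linarith)) hl

theorem h3_log_sum (u : ℝ) (hu : 1 ≤ u) (N : ℕ) :
    ∑ n ∈ Icc 1 N, (Real.log u - Real.log n) ≤ u := by
  have h1 : ∑ n ∈ Icc 1 N, (Real.log u - Real.log n) = Real.log (u ^ N / N !) := by
    rw [Real.log_div (by positivity) (by positivity), Real.log_pow]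
    induction N with
    | zero => simp
    | succ N ih =>
      rw [Finset.sum_Icc_succ_top (by omega), ih, Nat.factorial_succ, Nat.cast_mul,
        Real.log_mul (by positivity) (by positivity)]
      push_cast
      ring
  rw [h1, Real.log_le_iff_le_exp (by positivity)]
  exact Real.pow_div_factorial_le_exp u (by linarith) N

/-- `|Sg(u)| log u ≤ |S1g(u)| + u` -/
theorem h3_one (g : ℕ → ℂ) (hg : ∀ n, ‖g n‖ ≤ 1) (u : ℝ) (hu : 1 ≤ u) :
    ‖Sg g u‖ * Real.log u ≤ ‖S1g g u‖ + u := by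
  have hl : 0 ≤ Real.log u := Real.log_nonneg hu
  have e : Sg g u * (Real.log u : ℂ) = S1g g u +
      ∑ n ∈ Icc 1 ⌊u⌋₊, g n * ((Real.log u - Real.log n : ℝ) : ℂ) := by
    unfold Sg S1g
    rw [Finset.sum_mul, ← Finset.sum_add_distrib]
    apply Finset.sum_congr rfl
    intro n _
    push_cast
    ring
  have h1 : ‖Sg g u‖ * Real.log u = ‖Sg g u * (Real.log u : ℂ)‖ := by
    rw [norm_mul, Complex.norm_real, Real.norm_eq_abs, abs_of_nonneg hl]
  rw [h1, e]
  refine (norm_add_le _ _).trans ?_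
  apply add_le_add le_rfl
  refine le_trans ?_ (h3_log_sum u hu ⌊u⌋₊)
  refine (norm_sum_le _ _).trans (Finset.sum_le_sum ?_)
  intro n hn
  rw [Finset.mem_Icc] at hn
  have hn1 : (1 : ℝ) ≤ n := by exact_mod_cast hn.1
  have hnu : (n : ℝ) ≤ u := (Nat.le_floor_iff (by linarith)).1 hn.2
  have h2 : 0 ≤ Real.log u - Real.log n := sub_nonneg.2 (Real.log_le_log (by linarith) hnu)
  rw [norm_mul, Complex.norm_real, Real.norm_eq_abs, abs_of_nonneg h2]
  calc ‖g n‖ * (Real.log u - Real.log n) ≤ 1 * (Real.log u - Real.log n) :=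
        mul_le_mul_of_nonneg_right (hg n) h2
    _ = Real.log u - Real.log n := one_mul _

theorem h3_int (g : ℕ → ℂ) (hg : ∀ n, ‖g n‖ ≤ 1) (σ : ℝ) (hσ : 0 < σ) :
    IntegrableOn (fun u : ℝ => ‖S1g g u‖ ^ 2 * u ^ (-(3 + 2 * σ))) (Set.Ioi 1) := by
  have h1 : IntegrableOn (fun u : ℝ => 4 / σ ^ 2 * u ^ (-(1 + σ))) (Set.Ioi 1) :=
    (integrableOn_Ioi_rpow_of_lt (by linarith) one_pos).const_mul _
  apply h1.mono'
  · apply Measurable.aestronglyMeasurable
    apply Measurable.mul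
    · exact (h3_meas fun n => g n * (Real.log n : ℂ)).norm.pow_const 2
    · exact measurable_id.pow_const _
  · rw [ae_restrict_iff' measurableSet_Ioi]
    apply Filter.Eventually.of_forall
    intro u hu
    have hu1 : 1 < u := hu
    have hu0 : 0 < u := by linarith
    have h2 := h3_S1g g hg u hu1.le
    have h3 : Real.log u ≤ u ^ (σ / 2) / (σ / 2) := Real.log_le_rpow_div hu0.le (by positivity)
    have h4 : ‖S1g g u‖ ≤ 2 / σ * u ^ (1 + σ / 2) := by
      refine h2.trans ?_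
      calc u * Real.log u ≤ u * (u ^ (σ / 2) / (σ / 2)) := mul_le_mul_of_nonneg_left h3 hu0.le
        _ = 2 / σ * u ^ (1 + σ / 2) := by
            rw [Real.rpow_add hu0, Real.rpow_one]
            field_simp
    rw [Real.norm_eq_abs, abs_of_nonneg (by positivity)]
    calc ‖S1g g u‖ ^ 2 * u ^ (-(3 + 2 * σ))
        ≤ (2 / σ * u ^ (1 + σ / 2)) ^ 2 * u ^ (-(3 + 2 * σ)) := by
          apply mul_le_mul_of_nonneg_right _ (by positivity)
          exact pow_le_pow_left₀ (norm_nonneg _) h4 2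
      _ = 4 / σ ^ 2 * u ^ (-(1 + σ)) := by
          rw [mul_pow, ← Real.rpow_natCast (u ^ (1 + σ / 2)), ← Real.rpow_mul hu0.le,
            mul_assoc, ← Real.rpow_add hu0]
          have e1 : (1 + σ / 2) * ((2 : ℕ) : ℝ) + -(3 + 2 * σ) = -(1 + σ) := by
            push_cast
            ring
          rw [e1]
          ring

theorem h3_cs {μ : Measure ℝ} (f g : ℝ → ℝ) (hf : Integrable (fun u => f u ^ 2) μ)
    (hg : Integrable (fun u => g u ^ 2) μ) (hfg : Integrable (fun u => f u * g u) μ) :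
    (∫ u, f u * g u ∂μ) ^ 2 ≤ (∫ u, f u ^ 2 ∂μ) * ∫ u, g u ^ 2 ∂μ := by
  have h1 : ∀ l : ℝ, 0 ≤ (∫ u, g u ^ 2 ∂μ) * (l * l) + (-2 * ∫ u, f u * g u ∂μ) * l +
      ∫ u, f u ^ 2 ∂μ := by
    intro l
    have h2 : 0 ≤ ∫ u, (f u - l * g u) ^ 2 ∂μ := integral_nonneg fun u => sq_nonneg _
    have e : ∀ u, (f u - l * g u) ^ 2 = (l * l) * g u ^ 2 + (-2 * l) * (f u * g u) + f u ^ 2 := by
      intro u
      ring
    simp only [e] at h2
    have i1 : Integrable (fun u => (l * l) * g u ^ 2) μ := hg.const_mul _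
    have i2 : Integrable (fun u => (-2 * l) * (f u * g u)) μ := hfg.const_mul _
    have i3 : Integrable (fun u => (l * l) * g u ^ 2 + (-2 * l) * (f u * g u)) μ := i1.add i2
    rw [integral_add i3 hf, integral_add i1 i2, integral_const_mul, integral_const_mul] at h2
    linarith
  have h3 := discrim_le_zero h1
  unfold discrim at h3
  nlinarith

theorem h3_key (g : ℕ → ℂ) (hg : ∀ n, ‖g n‖ ≤ 1) (σ a x : ℝ) (hσ : 0 < σ) (ha : 1 ≤ a)
    (hax : a ≤ x) : IntervalIntegrable (fun u : ℝ => ‖S1g g u‖ * u ^ (-(2 + 2 * σ))) volume a x ∧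
    ∫ u in a..x, ‖S1g g u‖ * u ^ (-(2 + 2 * σ)) ≤ Real.sqrt (I1 g σ) * Real.sqrt (1 / σ) := by
  have hf : IntegrableOn (fun u : ℝ => (‖S1g g u‖ * u ^ (-(3 + 2 * σ) / 2)) ^ 2) (Set.Ioi 1) := by
    apply (h3_int g hg σ hσ).congr_fun _ measurableSet_Ioi
    intro u hu
    have hu0 : (0 : ℝ) < u := lt_trans one_pos hu
    show ‖S1g g u‖ ^ 2 * u ^ (-(3 + 2 * σ)) = (‖S1g g u‖ * u ^ (-(3 + 2 * σ) / 2)) ^ 2
    rw [mul_pow, ← Real.rpow_natCast (u ^ (-(3 + 2 * σ) / 2)), ← Real.rpow_mul hu0.le]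
    congr 2
    push_cast
    ring
  have hgg : IntegrableOn (fun u : ℝ => (u ^ (-(1 + 2 * σ) / 2)) ^ 2) (Set.Ioi 1) := by
    apply (integrableOn_Ioi_rpow_of_lt (a := -(1 + 2 * σ)) (by linarith) one_pos).congr_fun _
      measurableSet_Ioi
    intro u hu
    have hu0 : (0 : ℝ) < u := lt_trans one_pos hu
    show u ^ (-(1 + 2 * σ)) = (u ^ (-(1 + 2 * σ) / 2)) ^ 2
    rw [← Real.rpow_natCast (u ^ (-(1 + 2 * σ) / 2)), ← Real.rpow_mul hu0.le]
    congr 1
    push_cast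
    ring
  have hfg : IntegrableOn (fun u : ℝ => (‖S1g g u‖ * u ^ (-(3 + 2 * σ) / 2)) *
      u ^ (-(1 + 2 * σ) / 2)) (Set.Ioi 1) := by
    apply (hf.add hgg).mono'
    · apply Measurable.aestronglyMeasurable
      apply Measurable.mul
      · apply Measurable.mul
        · exact (h3_meas fun n => g n * (Real.log n : ℂ)).norm
        · exact measurable_id.pow_const _
      · exact measurable_id.pow_const _
    · apply Filter.Eventually.of_forall
      intro u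
      rw [Real.norm_eq_abs, abs_mul]
      show _ ≤ (‖S1g g u‖ * u ^ (-(3 + 2 * σ) / 2)) ^ 2 + (u ^ (-(1 + 2 * σ) / 2)) ^ 2
      rw [← sq_abs (‖S1g g u‖ * u ^ (-(3 + 2 * σ) / 2)), ← sq_abs (u ^ (-(1 + 2 * σ) / 2))]
      nlinarith [sq_nonneg (|‖S1g g u‖ * u ^ (-(3 + 2 * σ) / 2)| - |u ^ (-(1 + 2 * σ) / 2)|),
        sq_nonneg (|‖S1g g u‖ * u ^ (-(3 + 2 * σ) / 2)|), sq_nonneg (|u ^ (-(1 + 2 * σ) / 2)|)]
  have hI : IntegrableOn (fun u : ℝ => ‖S1g g u‖ * u ^ (-(2 + 2 * σ))) (Set.Ioi 1) := by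
    apply hfg.congr_fun _ measurableSet_Ioi
    intro u hu
    have hu0 : (0 : ℝ) < u := lt_trans one_pos hu
    show ‖S1g g u‖ * u ^ (-(3 + 2 * σ) / 2) * u ^ (-(1 + 2 * σ) / 2)
      = ‖S1g g u‖ * u ^ (-(2 + 2 * σ))
    rw [mul_assoc, ← Real.rpow_add hu0]
    congr 2
    ring
  have hcs := h3_cs _ _ hf hgg hfg
  have e1 : ∫ u in Set.Ioi (1 : ℝ), (‖S1g g u‖ * u ^ (-(3 + 2 * σ) / 2)) *
      u ^ (-(1 + 2 * σ) / 2) = ∫ u in Set.Ioi (1 : ℝ), ‖S1g g u‖ * u ^ (-(2 + 2 * σ)) := by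
    apply setIntegral_congr_fun measurableSet_Ioi
    intro u hu
    have hu0 : (0 : ℝ) < u := lt_trans one_pos hu
    show ‖S1g g u‖ * u ^ (-(3 + 2 * σ) / 2) * u ^ (-(1 + 2 * σ) / 2)
      = ‖S1g g u‖ * u ^ (-(2 + 2 * σ))
    rw [mul_assoc, ← Real.rpow_add hu0]
    congr 2
    ring
  have e2 : ∫ u in Set.Ioi (1 : ℝ), (‖S1g g u‖ * u ^ (-(3 + 2 * σ) / 2)) ^ 2 = I1 g σ := by
    unfold I1
    apply setIntegral_congr_fun measurableSet_Ioi
    intro u hu
    have hu0 : (0 : ℝ) < u := lt_trans one_pos hu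
    show (‖S1g g u‖ * u ^ (-(3 + 2 * σ) / 2)) ^ 2 = ‖S1g g u‖ ^ 2 * u ^ (-(3 + 2 * σ))
    rw [mul_pow, ← Real.rpow_natCast (u ^ (-(3 + 2 * σ) / 2)), ← Real.rpow_mul hu0.le]
    congr 2
    push_cast
    ring
  have e3 : ∫ u in Set.Ioi (1 : ℝ), (u ^ (-(1 + 2 * σ) / 2)) ^ 2 = 1 / (2 * σ) := by
    rw [← show ∫ u in Set.Ioi (1 : ℝ), u ^ (-(1 + 2 * σ)) = 1 / (2 * σ) by
      rw [integral_Ioi_rpow_of_lt (by linarith) one_pos, Real.one_rpow]
      have e : -(1 + 2 * σ) + 1 = -(2 * σ) := by ring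
      rw [e, neg_div_neg_eq]]
    apply setIntegral_congr_fun measurableSet_Ioi
    intro u hu
    have hu0 : (0 : ℝ) < u := lt_trans one_pos hu
    show (u ^ (-(1 + 2 * σ) / 2)) ^ 2 = u ^ (-(1 + 2 * σ))
    rw [← Real.rpow_natCast (u ^ (-(1 + 2 * σ) / 2)), ← Real.rpow_mul hu0.le]
    congr 1
    push_cast
    ring
  rw [e1, e2, e3] at hcs
  have hsub : Set.Ioc a x ⊆ Set.Ioi 1 := fun u hu => lt_of_le_of_lt ha hu.1
  refine ⟨(intervalIntegrable_iff_integrableOn_Ioc_of_le hax).2 (hI.mono_set hsub), ?_⟩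
  have hnn : 0 ≤ I1 g σ := by
    unfold I1
    apply setIntegral_nonneg measurableSet_Ioi
    intro u hu
    have hu0 : (0 : ℝ) < u := lt_trans one_pos hu
    positivity
  have hle : ∫ u in a..x, ‖S1g g u‖ * u ^ (-(2 + 2 * σ))
      ≤ ∫ u in Set.Ioi (1 : ℝ), ‖S1g g u‖ * u ^ (-(2 + 2 * σ)) := by
    rw [intervalIntegral.integral_of_le hax]
    apply setIntegral_mono_set hI
    · rw [Filter.EventuallyLE, ae_restrict_iff' measurableSet_Ioi]
      apply Filter.Eventually.of_forall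
      intro u hu
      have hu0 : (0 : ℝ) < u := lt_trans one_pos hu
      show 0 ≤ ‖S1g g u‖ * u ^ (-(2 + 2 * σ))
      positivity
    · exact hsub.eventuallyLE
  refine hle.trans ?_
  rw [← Real.sqrt_mul hnn]
  apply Real.le_sqrt_of_sq_le
  refine hcs.trans ?_
  apply mul_le_mul_of_nonneg_left _ hnn
  apply one_div_le_one_div_of_le hσ
  linarith

theorem h3_point (x u : ℝ) (hu : Real.exp 1 ≤ u) (hux : u ≤ x) :
    1 / Real.log u ≤ Real.exp 4 * ∑ i ∈ range (⌊Real.log (Real.log x) / Real.log 2⌋₊ + 1),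
      (2 : ℝ) ^ (-(i : ℝ)) * u ^ (-(2 * (2 : ℝ) ^ (-(i : ℝ)))) := by
  have he := Real.exp_pos 1
  have hu0 : 0 < u := lt_of_lt_of_le he hu
  have hl1 : 1 ≤ Real.log u := by
    rw [Real.le_log_iff_exp_le hu0]
    exact hu
  have hl0 : 0 < Real.log u := by linarith
  have hll : 0 ≤ Real.log (Real.log u) := Real.log_nonneg hl1
  have h2 : 0 < Real.log 2 := Real.log_pos one_lt_two
  set i := ⌊Real.log (Real.log u) / Real.log 2⌋₊ with hi
  have hi1 : (i : ℝ) * Real.log 2 ≤ Real.log (Real.log u) := by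
    rw [← le_div_iff₀ h2]
    exact Nat.floor_le (by positivity)
  have hi2 : Real.log (Real.log u) < ((i : ℝ) + 1) * Real.log 2 := by
    rw [← div_lt_iff₀ h2]
    exact Nat.lt_floor_add_one _
  have ha : (2 : ℝ) ^ (i : ℝ) ≤ Real.log u := by
    rw [Real.rpow_def_of_pos two_pos, ← Real.exp_log hl0]
    apply Real.exp_le_exp.2
    rw [mul_comm]
    exact hi1
  have hb : Real.log u ≤ 2 * (2 : ℝ) ^ (i : ℝ) := by
    rw [← Real.exp_log hl0]
    refine (Real.exp_le_exp.2 hi2.le).trans (le_of_eq ?_)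
    rw [add_mul, one_mul, Real.exp_add, Real.exp_log two_pos, mul_comm,
      Real.rpow_def_of_pos two_pos, mul_comm (Real.log 2)]
  have hmem : i ∈ range (⌊Real.log (Real.log x) / Real.log 2⌋₊ + 1) := by
    rw [Finset.mem_range, Nat.lt_succ_iff, hi]
    apply Nat.floor_le_floor
    apply div_le_div_of_nonneg_right _ h2.le
    exact Real.log_le_log hl0 (Real.log_le_log hu0 hux)
  have hnn : ∀ j ∈ range (⌊Real.log (Real.log x) / Real.log 2⌋₊ + 1),
      (0 : ℝ) ≤ (2 : ℝ) ^ (-(j : ℝ)) * u ^ (-(2 * (2 : ℝ) ^ (-(j : ℝ)))) := by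
    intro j _
    positivity
  have hs := Finset.single_le_sum hnn hmem
  refine le_trans ?_ (mul_le_mul_of_nonneg_left hs (Real.exp_pos 4).le)
  have h3 : Real.exp (-4) ≤ u ^ (-(2 * (2 : ℝ) ^ (-(i : ℝ)))) := by
    rw [Real.rpow_def_of_pos hu0]
    apply Real.exp_le_exp.2
    rw [Real.rpow_neg two_pos.le]
    have hp : (0 : ℝ) < (2 : ℝ) ^ (i : ℝ) := by positivity
    have h5 : Real.log u * (2 * ((2 : ℝ) ^ (i : ℝ))⁻¹) ≤ 4 := by
      rw [← div_eq_mul_inv, mul_div_assoc', div_le_iff₀ hp]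
      linarith
    linarith
  have h4 : 1 / Real.log u ≤ (2 : ℝ) ^ (-(i : ℝ)) := by
    rw [Real.rpow_neg two_pos.le, one_div]
    exact inv_anti₀ (by positivity) ha
  have hq : (0 : ℝ) < (2 : ℝ) ^ (-(i : ℝ)) := by positivity
  calc 1 / Real.log u ≤ (2 : ℝ) ^ (-(i : ℝ)) := h4
    _ = Real.exp 4 * ((2 : ℝ) ^ (-(i : ℝ)) * Real.exp (-4)) := by
        rw [mul_left_comm, ← Real.exp_add]
        norm_num
    _ ≤ Real.exp 4 * ((2 : ℝ) ^ (-(i : ℝ)) * u ^ (-(2 * (2 : ℝ) ^ (-(i : ℝ))))) := by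
        apply mul_le_mul_of_nonneg_left _ (Real.exp_pos 4).le
        exact mul_le_mul_of_nonneg_left h3 hq.le

theorem h3_loglog (x : ℝ) (hx : Real.exp 1 ≤ x) :
    IntervalIntegrable (fun u : ℝ => 1 / (u * Real.log u)) volume (Real.exp 1) x ∧
    ∫ u in (Real.exp 1)..x, 1 / (u * Real.log u) = Real.log (Real.log x) := by
  have he := Real.exp_pos 1
  have hpos : ∀ u ∈ Set.uIcc (Real.exp 1) x, 0 < u ∧ 0 < Real.log u := by
    intro u hu
    rw [Set.uIcc_of_le hx] at hu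
    have hu0 : 0 < u := lt_of_lt_of_le he hu.1
    refine ⟨hu0, lt_of_lt_of_le one_pos ?_⟩
    rw [Real.le_log_iff_exp_le hu0]
    exact hu.1
  have hi : IntervalIntegrable (fun u : ℝ => 1 / (u * Real.log u)) volume (Real.exp 1) x := by
    apply ContinuousOn.intervalIntegrable
    apply ContinuousOn.div continuousOn_const
    · apply ContinuousOn.mul continuousOn_id
      apply ContinuousOn.log continuousOn_id
      intro u hu
      exact (hpos u hu).1.ne'
    · intro u hu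
      exact (mul_pos (hpos u hu).1 (hpos u hu).2).ne'
  refine ⟨hi, ?_⟩
  rw [intervalIntegral.integral_eq_sub_of_hasDerivAt (f := fun u => Real.log (Real.log u)) _ hi]
  · rw [Real.log_exp, Real.log_one, sub_zero]
  · intro u hu
    have h1 := (Real.hasDerivAt_log (hpos u hu).1.ne').log (hpos u hu).2.ne'
    have e : 1 / (u * Real.log u) = u⁻¹ / Real.log u := by
      rw [one_div, mul_inv, div_eq_mul_inv]
    rw [e]
    exact h1

theorem st_H3 : ST_H3 := by
  refine ⟨Real.exp 4 + 2, by positivity, ?_⟩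
  intro g hg x hx
  have hE : Real.exp 1 ≤ x := by linarith [Real.exp_one_lt_d9]
  have hE1 : 1 ≤ Real.exp 1 := by linarith [Real.exp_one_gt_d9]
  have he4 := Real.exp_pos 4
  have hmS : Measurable fun u : ℝ => ‖Sg g u‖ / u ^ 2 :=
    (h3_meas g).norm.div (measurable_id.pow_const 2)
  -- integrability
  have hint : ∀ a b : ℝ, 1 ≤ a → a ≤ b →
      IntervalIntegrable (fun u : ℝ => ‖Sg g u‖ / u ^ 2) volume a b := by
    intro a b ha hab
    rw [intervalIntegrable_iff_integrableOn_Ioc_of_le hab]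
    have h1 : IntegrableOn (fun _ : ℝ => (1 : ℝ)) (Set.Ioc a b) := by
      rw [integrableOn_const_iff]
      right
      rw [Real.volume_Ioc]
      exact ENNReal.ofReal_lt_top
    apply h1.mono' hmS.aestronglyMeasurable
    rw [ae_restrict_iff' measurableSet_Ioc]
    apply Filter.Eventually.of_forall
    intro u hu
    have hu1 : 1 < u := lt_of_le_of_lt ha hu.1
    have hu0 : 0 < u := by linarith
    rw [Real.norm_eq_abs, abs_of_nonneg (by positivity), div_le_one (by positivity)]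
    have := h3_Sg g hg u hu0.le
    nlinarith
  have hfirst : ∫ u in (1 : ℝ)..(Real.exp 1), ‖Sg g u‖ / u ^ 2 ≤ 2 := by
    have h1 : ∫ u in (1 : ℝ)..(Real.exp 1), ‖Sg g u‖ / u ^ 2
        ≤ ∫ u in (1 : ℝ)..(Real.exp 1), (1 : ℝ) := by
      apply intervalIntegral.integral_mono_on hE1 (hint 1 _ le_rfl hE1)
        intervalIntegrable_const
      intro u hu
      have hu1 : 1 ≤ u := hu.1
      have hu0 : 0 < u := by linarith
      rw [div_le_one (by positivity)]
      have := h3_Sg g hg u hu0.le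
      nlinarith
    refine h1.trans ?_
    rw [intervalIntegral.integral_const, smul_eq_mul, mul_one]
    linarith [Real.exp_one_lt_d9]
  set m := ⌊Real.log (Real.log x) / Real.log 2⌋₊ with hm
  have hsec : ∫ u in (Real.exp 1)..x, ‖Sg g u‖ / u ^ 2 ≤ Real.log (Real.log x) +
      Real.exp 4 * ∑ i ∈ range (m + 1),
        (2 : ℝ) ^ (-(i / 2 : ℝ)) * Real.sqrt (I1 g ((2 : ℝ) ^ (-(i : ℝ)))) := by
    have hk := fun i : ℕ => h3_key g hg ((2 : ℝ) ^ (-(i : ℝ))) (Real.exp 1) x (by positivity)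
      hE1 hE
    have hll := h3_loglog x hE
    have hsi : IntervalIntegrable (fun u : ℝ => Real.exp 4 * ∑ i ∈ range (m + 1),
        (2 : ℝ) ^ (-(i : ℝ)) * (‖S1g g u‖ * u ^ (-(2 + 2 * (2 : ℝ) ^ (-(i : ℝ)))))) volume
        (Real.exp 1) x := by
      apply IntervalIntegrable.const_mul
      have h0 := IntervalIntegrable.sum (μ := volume) (a := Real.exp 1) (b := x) (range (m + 1))
        (f := fun (i : ℕ) (u : ℝ) =>
          (2 : ℝ) ^ (-(i : ℝ)) * (‖S1g g u‖ * u ^ (-(2 + 2 * (2 : ℝ) ^ (-(i : ℝ))))))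
        fun i _ => (hk i).1.const_mul _
      have e0 : (∑ i ∈ range (m + 1), fun u : ℝ =>
          (2 : ℝ) ^ (-(i : ℝ)) * (‖S1g g u‖ * u ^ (-(2 + 2 * (2 : ℝ) ^ (-(i : ℝ))))))
          = fun u : ℝ => ∑ i ∈ range (m + 1),
          (2 : ℝ) ^ (-(i : ℝ)) * (‖S1g g u‖ * u ^ (-(2 + 2 * (2 : ℝ) ^ (-(i : ℝ))))) := by
        funext u
        rw [Finset.sum_apply]
      rw [e0] at h0
      exact h0
    have h1 : ∫ u in (Real.exp 1)..x, ‖Sg g u‖ / u ^ 2 ≤
        ∫ u in (Real.exp 1)..x, (1 / (u * Real.log u) + Real.exp 4 * ∑ i ∈ range (m + 1),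
        (2 : ℝ) ^ (-(i : ℝ)) * (‖S1g g u‖ * u ^ (-(2 + 2 * (2 : ℝ) ^ (-(i : ℝ)))))) := by
      apply intervalIntegral.integral_mono_on hE (hint _ x hE1 hE) (hll.1.add hsi)
      intro u hu
      have hu0 : 0 < u := lt_of_lt_of_le (Real.exp_pos 1) hu.1
      have hu1 : 1 ≤ u := hE1.trans hu.1
      have hl1 : 1 ≤ Real.log u := by
        rw [Real.le_log_iff_exp_le hu0]
        exact hu.1
      have hl0 : 0 < Real.log u := by linarith
      have h2 := h3_one g hg u hu1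
      have h3 := h3_point x u hu.1 hu.2
      rw [← hm] at h3
      have h4 : ‖Sg g u‖ / u ^ 2 ≤ 1 / (u * Real.log u) +
          ‖S1g g u‖ / u ^ 2 * (1 / Real.log u) := by
        have e : 1 / (u * Real.log u) + ‖S1g g u‖ / u ^ 2 * (1 / Real.log u)
            = ((‖S1g g u‖ + u) / Real.log u) / u ^ 2 := by
          field_simp
          ring
        rw [e]
        apply div_le_div_of_nonneg_right _ (by positivity)
        rw [le_div_iff₀ hl0]
        exact h2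
      refine h4.trans (add_le_add le_rfl ?_)
      refine (mul_le_mul_of_nonneg_left h3 (by positivity)).trans (le_of_eq ?_)
      rw [mul_left_comm, Finset.mul_sum]
      congr 1
      apply Finset.sum_congr rfl
      intro i _
      have e : -(2 + 2 * (2 : ℝ) ^ (-(i : ℝ))) = -2 + -(2 * (2 : ℝ) ^ (-(i : ℝ))) := by ring
      rw [e, Real.rpow_add hu0, Real.rpow_neg hu0.le 2]
      have e2 : u ^ (2 : ℝ) = u ^ 2 := by
        rw [← Real.rpow_natCast]
        norm_num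
      rw [e2]
      ring
    refine h1.trans ?_
    rw [intervalIntegral.integral_add hll.1 hsi, hll.2, intervalIntegral.integral_const_mul,
      intervalIntegral.integral_finsetSum fun i _ => (hk i).1.const_mul _]
    apply add_le_add le_rfl
    apply mul_le_mul_of_nonneg_left _ he4.le
    apply Finset.sum_le_sum
    intro i _
    rw [intervalIntegral.integral_const_mul]
    refine (mul_le_mul_of_nonneg_left (hk i).2 (by positivity)).trans (le_of_eq ?_)
    have e1 : 1 / (2 : ℝ) ^ (-(i : ℝ)) = (2 : ℝ) ^ (i : ℝ) := by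
      rw [Real.rpow_neg two_pos.le, one_div, inv_inv]
    have e2 : Real.sqrt ((2 : ℝ) ^ (i : ℝ)) = (2 : ℝ) ^ ((i : ℝ) / 2) := by
      rw [Real.sqrt_eq_rpow, ← Real.rpow_mul two_pos.le]
      congr 1
      ring
    rw [e1, e2, mul_comm (Real.sqrt _), ← mul_assoc, ← Real.rpow_add two_pos]
    congr 2
    ring
  have hll0 : 0 ≤ Real.log (Real.log x) := by
    apply Real.log_nonneg
    rw [Real.le_log_iff_exp_le (by linarith)]
    exact hE
  have hS0 : 0 ≤ ∑ i ∈ range (m + 1),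
      (2 : ℝ) ^ (-(i / 2 : ℝ)) * Real.sqrt (I1 g ((2 : ℝ) ^ (-(i : ℝ)))) := by
    apply Finset.sum_nonneg
    intro i _
    positivity
  rw [← intervalIntegral.integral_add_adjacent_intervals (hint 1 _ le_rfl hE1) (hint _ x hE1 hE)]
  nlinarith

end Pool.Agent.Helper40.MR
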