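import Pool.Agent.Helper40.MR.Defs

set_option autoImplicit false

/-! # MR: the Matomaki-Radziwill theorem for Dirichlet polynomials (assembly) -/

open Finset MeasureTheory
open scoped BigOperators Nat

namespace Pool.Agent.Helper40.MR

theorem mr_lam_mul (m n : ℕ) : lam (m * n) = lam m * lam n := by
  unfold lam
  by_cases hm : m = 0
  · simp [hm]
  by_cases hn : n = 0
  · simp [hn]
  rw [if_neg hm, if_neg hn, if_neg (mul_ne_zero hm hn), ← pow_add,
    (Nat.perm_primeFactorsList_mul hm hn).length_eq, List.length_append]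

theorem mr_lam_norm (n : ℕ) : ‖lam n‖ ≤ 1 := by
  unfold lam
  split_ifs
  · simp
  · simp

theorem mr_CM {q : ℕ} (χ : DirichletCharacter ℂ q) : CM (lch χ) := by
  refine ⟨?_, ?_, ?_⟩
  · unfold lch lam
    simp
  · intro m n
    unfold lch
    rw [mr_lam_mul, Nat.cast_mul, map_mul]
    ring
  · intro n
    unfold lch
    rw [norm_mul]
    exact mul_le_one₀ (mr_lam_norm n) (norm_nonneg _) (DirichletCharacter.norm_le_one χ _)

theorem mr_DP_cont (s : Finset ℕ) (c : ℕ → ℂ) : Continuous (DP s c) := by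
  unfold DP nit
  fun_prop

theorem mr_meas (P Q H : ℝ) (f : ℕ → ℂ) (α T : ℝ) :
    MeasurableSet {t | t ∈ Set.Icc (-T) T ∧ ¬ Small P Q H f α t} := by
  apply measurableSet_Icc.inter
  apply MeasurableSet.compl
  apply IsClosed.measurableSet
  have e : {t | Small P Q H f α t}
      = ⋂ v ∈ Vs P Q H, {t | ‖DP (Cls P Q H v) f t‖ ≤ Real.exp (-(α * (v / H)))} := by
    ext t
    simp only [Set.mem_ofPred_eq, Set.mem_iInter, Small]
  show IsClosed {t | Small P Q H f α t}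
  rw [e]
  apply isClosed_biInter
  intro v _
  exact isClosed_le (mr_DP_cont _ _).norm continuous_const

theorem mr_geom (a b : ℕ) : ∑ j ∈ Finset.Ico a b, (1 / 20 : ℝ) ^ j ≤ 2 * (1 / 20) ^ a := by
  rcases le_or_gt a b with h | h
  · rw [geom_sum_Ico (by norm_num) h]
    have h1 : (0 : ℝ) ≤ (1 / 20) ^ b := by positivity
    have h2 : (0 : ℝ) ≤ (1 / 20) ^ a := by positivity
    rw [div_le_iff_of_neg (by norm_num)]
    nlinarith
  · rw [Finset.Ico_eq_empty (by omega), Finset.sum_empty]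
    positivity

theorem mr_IocN {X : ℝ} (hX : 0 ≤ X) (n : ℕ) :
    n ∈ IocN X (2 * X) ↔ X < n ∧ (n : ℝ) ≤ 2 * X := by
  unfold IocN
  rw [Finset.mem_Ioc, Nat.floor_lt hX, Nat.le_floor_iff (by linarith)]

/-- the difference of the polynomials with and without the large scales -/
theorem mr_diff (hMV : ST_MV) (hD : ST_DENS) : ∃ C : ℝ, 0 < C ∧
    ∀ (K y X T : ℝ) (J' J : ℕ) (s : ℕ → Prop) (f : ℕ → ℂ), (∀ n, ‖f n‖ ≤ 1) → 3 ≤ y →
      1 ≤ J' → J' ≤ J + 1 → 1 ≤ X → 1 ≤ T → T ≤ X →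
      (∀ j ≤ J, 2 ≤ Psc y j ∧ Psc y j < Qsc K y j ∧ Qsc K y j ^ 2 ≤ X) →
      ∫ t in (-T)..T,
        ‖DP (IocN X (2 * X)) (res (fun n => (∀ j ∈ range (J + 1), Hit (Psc y j) (Qsc K y j) n) ∧
          s n) f) t -
        DP (IocN X (2 * X)) (res (fun n => (∀ j ∈ range J', Hit (Psc y j) (Qsc K y j) n) ∧
          s n) f) t‖ ^ 2 ≤ C * (1 / 20) ^ J' := by
  classical
  obtain ⟨C₁, hC₁, h1⟩ := hMV
  obtain ⟨C₂, hC₂, h2⟩ := hD
  refine ⟨C₁ * 3 * C₂ * 2, by positivity, ?_⟩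
  intro K y X T J' J s f hf hy hJ' hJJ hX hT hTX hPQ
  set S := fun n => (∀ j ∈ range (J + 1), Hit (Psc y j) (Qsc K y j) n) ∧ s n with hS
  set S' := fun n => (∀ j ∈ range J', Hit (Psc y j) (Qsc K y j) n) ∧ s n with hS'
  set c : ℕ → ℂ := fun n =>
    if n ∈ IocN X (2 * X) then (res S f n - res S' f n) / n else 0 with hc
  have hX0 : 0 < X := by linarith
  have e1 : ∀ t : ℝ, DP (IocN X (2 * X)) (res S f) t - DP (IocN X (2 * X)) (res S' f) t
      = ∑ n ∈ Icc 1 ⌊2 * X⌋₊, c n * nit n t := by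
    intro t
    unfold DP
    rw [← Finset.sum_sub_distrib]
    have hsub : IocN X (2 * X) ⊆ Icc 1 ⌊2 * X⌋₊ := by
      intro n hn
      unfold IocN at hn
      rw [Finset.mem_Ioc] at hn
      rw [Finset.mem_Icc]
      omega
    rw [← Finset.sum_subset hsub]
    · apply Finset.sum_congr rfl
      intro n hn
      rw [hc]
      simp only [if_pos hn]
      ring
    · intro n _ hn
      rw [hc]
      simp only [if_neg hn]
      ring
  have e2 : ∀ t : ℝ, ‖DP (IocN X (2 * X)) (res S f) t - DP (IocN X (2 * X)) (res S' f) t‖ ^ 2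
      = ‖∑ n ∈ Icc 1 ⌊2 * X⌋₊, c n * nit n t‖ ^ 2 := fun t => by rw [e1 t]
  simp only [e2]
  refine (h1 ⌊2 * X⌋₊ T c hT).trans ?_
  have hN : (⌊2 * X⌋₊ : ℝ) ≤ 2 * X := Nat.floor_le (by linarith)
  have hcn : ∀ n : ℕ, ‖c n‖ ^ 2 ≤ ∑ j ∈ Finset.Ico J' (J + 1),
      (if n ∈ (IocN X (2 * X)).filter (fun n => ¬ Hit (Psc y j) (Qsc K y j) n) then
        1 / X ^ 2 else 0) := by
    intro n
    have hnn : ∀ j, (0 : ℝ) ≤
        (if n ∈ (IocN X (2 * X)).filter (fun n => ¬ Hit (Psc y j) (Qsc K y j) n) then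
        1 / X ^ 2 else 0) := by
      intro j
      split_ifs
      · positivity
      · exact le_rfl
    by_cases hn : n ∈ IocN X (2 * X)
    · have hnX := ((mr_IocN hX0.le n).1 hn).1
      have hn0 : (0 : ℝ) < n := hX0.trans hnX
      by_cases hSn : S n
      · have hSn' : S' n := by
          refine ⟨fun j hj => hSn.1 j ?_, hSn.2⟩
          rw [Finset.mem_range] at hj ⊢
          omega
        have : c n = 0 := by
          rw [hc]
          simp only [if_pos hn, res, if_pos hSn, if_pos hSn', sub_self, zero_div]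
        rw [this, norm_zero, zero_pow two_ne_zero]
        exact Finset.sum_nonneg fun j _ => hnn j
      · by_cases hSn' : S' n
        · have hex : ∃ j ∈ Finset.Ico J' (J + 1), ¬ Hit (Psc y j) (Qsc K y j) n := by
            by_contra hcon
            push Not at hcon
            apply hSn
            refine ⟨fun j hj => ?_, hSn'.2⟩
            rw [Finset.mem_range] at hj
            rcases lt_or_ge j J' with hlt | hge
            · exact hSn'.1 j (Finset.mem_range.2 hlt)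
            · exact hcon j (Finset.mem_Ico.2 ⟨hge, hj⟩)
          obtain ⟨j, hj, hjn⟩ := hex
          refine le_trans ?_ (Finset.single_le_sum (fun i _ => hnn i) hj)
          rw [if_pos (Finset.mem_filter.2 ⟨hn, hjn⟩)]
          have : c n = (0 - f n) / n := by
            rw [hc]
            simp only [if_pos hn, res, if_neg hSn, if_pos hSn']
          rw [this, norm_div, zero_sub, norm_neg, Complex.norm_natCast, div_pow]
          apply div_le_div₀ zero_le_one _ (by positivity) _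
          · exact pow_le_one₀ (norm_nonneg _) (hf n)
          · exact pow_le_pow_left₀ hX0.le hnX.le 2
        · have : c n = 0 := by
            rw [hc]
            simp only [if_pos hn, res, if_neg hSn, if_neg hSn', sub_self, zero_div]
          rw [this, norm_zero, zero_pow two_ne_zero]
          exact Finset.sum_nonneg fun j _ => hnn j
    · have : c n = 0 := by
        rw [hc]
        simp only [if_neg hn]
      rw [this, norm_zero, zero_pow two_ne_zero]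
      exact Finset.sum_nonneg fun j _ => hnn j
  have hcard : ∀ j ∈ Finset.Ico J' (J + 1), ∑ n ∈ Icc 1 ⌊2 * X⌋₊,
      (if n ∈ (IocN X (2 * X)).filter (fun n => ¬ Hit (Psc y j) (Qsc K y j) n) then
        1 / X ^ 2 else 0) ≤ C₂ / X * (1 / 20) ^ j := by
    intro j hj
    rw [Finset.mem_Ico] at hj
    obtain ⟨hP2, hPQj, hQX⟩ := hPQ j (by omega)
    have h3 := h2 (Psc y j) (Qsc K y j) X hP2 hPQj hQX
    have hcd : Nat.card {n : ℕ // X < n ∧ (n : ℝ) ≤ 2 * X ∧ ¬ Hit (Psc y j) (Qsc K y j) n}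
        = ((IocN X (2 * X)).filter (fun n => ¬ Hit (Psc y j) (Qsc K y j) n)).card := by
      apply Nat.subtype_card
      intro n
      rw [Finset.mem_filter, mr_IocN hX0.le, and_assoc]
    rw [hcd] at h3
    have hy1 : 1 ≤ Real.log y := by
      rw [Real.le_log_iff_exp_le (by linarith)]
      linarith [Real.exp_one_lt_d9]
    have hratio : Real.log (Real.log (Qsc K y j) / Real.log (Psc y j))
        = 20 ^ j * Real.log y := by
      have hj0 : j ≠ 0 := by omega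
      have hy0 : y ≠ 0 := by linarith
      unfold Qsc Psc
      rw [if_neg hj0, Real.log_exp, Real.log_exp, two_mul, pow_add,
        mul_div_cancel_right₀ _ (pow_ne_zero _ hy0), Real.log_pow]
      push_cast
      ring
    rw [hratio] at h3
    have h4 : (((IocN X (2 * X)).filter (fun n => ¬ Hit (Psc y j) (Qsc K y j) n)).card : ℝ)
        * 20 ^ j ≤ C₂ * X := by
      refine le_trans ?_ h3
      apply mul_le_mul_of_nonneg_left _ (Nat.cast_nonneg _)
      have : (0 : ℝ) < 20 ^ j := by positivity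
      nlinarith
    rw [Finset.sum_ite_mem, Finset.sum_const, nsmul_eq_mul]
    have h5 : ((Icc 1 ⌊2 * X⌋₊ ∩ (IocN X (2 * X)).filter
        (fun n => ¬ Hit (Psc y j) (Qsc K y j) n)).card : ℝ)
        ≤ (((IocN X (2 * X)).filter (fun n => ¬ Hit (Psc y j) (Qsc K y j) n)).card : ℝ) := by
      exact_mod_cast Finset.card_le_card Finset.inter_subset_right
    have h20 : (0 : ℝ) < 20 ^ j := by positivity
    calc ((Icc 1 ⌊2 * X⌋₊ ∩ (IocN X (2 * X)).filter
        (fun n => ¬ Hit (Psc y j) (Qsc K y j) n)).card : ℝ) * (1 / X ^ 2)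
        ≤ (((IocN X (2 * X)).filter (fun n => ¬ Hit (Psc y j) (Qsc K y j) n)).card : ℝ)
          * (1 / X ^ 2) := mul_le_mul_of_nonneg_right h5 (by positivity)
      _ ≤ (C₂ * X / 20 ^ j) * (1 / X ^ 2) := by
          apply mul_le_mul_of_nonneg_right _ (by positivity)
          rw [le_div_iff₀ h20]
          exact h4
      _ = C₂ / X * (1 / 20) ^ j := by
          rw [one_div_pow]
          field_simp
  have hsum : ∑ n ∈ Icc 1 ⌊2 * X⌋₊, ‖c n‖ ^ 2 ≤ C₂ / X * (2 * (1 / 20) ^ J') := by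
    refine (Finset.sum_le_sum fun n _ => hcn n).trans ?_
    rw [Finset.sum_comm]
    refine (Finset.sum_le_sum hcard).trans ?_
    rw [← Finset.mul_sum]
    exact mul_le_mul_of_nonneg_left (mr_geom _ _) (by positivity)
  calc C₁ * (T + ⌊2 * X⌋₊) * ∑ n ∈ Icc 1 ⌊2 * X⌋₊, ‖c n‖ ^ 2
      ≤ C₁ * (3 * X) * (C₂ / X * (2 * (1 / 20) ^ J')) := by
        apply mul_le_mul
        · apply mul_le_mul_of_nonneg_left _ hC₁.le
          linarith
        · exact hsum
        · exact Finset.sum_nonneg fun n _ => by positivity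
        · positivity
    _ = C₁ * 3 * C₂ * 2 * (1 / 20) ^ J' := by
        field_simp

theorem mr_split (A A' : ℝ → ℂ) (hA : Continuous A) (hA' : Continuous A') (U : Set ℝ) (T : ℝ)
    (hT : 0 ≤ T) (hUT : U ⊆ Set.Icc (-T) T) :
    ∫ t in U, ‖A t‖ ^ 2 ≤ 2 * (∫ t in U, ‖A' t‖ ^ 2) + 2 * ∫ t in (-T)..T, ‖A t - A' t‖ ^ 2 := by
  have hi : ∀ g : ℝ → ℝ, Continuous g → IntegrableOn g (Set.Icc (-T) T) := fun g hg =>
    hg.continuousOn.integrableOn_Icc
  have h1 : IntegrableOn (fun t => ‖A t‖ ^ 2) U := (hi _ (by fun_prop)).mono_set hUT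
  have h2 : IntegrableOn (fun t => ‖A' t‖ ^ 2) U := (hi _ (by fun_prop)).mono_set hUT
  have h3 : IntegrableOn (fun t => ‖A t - A' t‖ ^ 2) U := (hi _ (by fun_prop)).mono_set hUT
  have h4 : ∫ t in U, ‖A t‖ ^ 2 ≤ ∫ t in U, (2 * ‖A' t‖ ^ 2 + 2 * ‖A t - A' t‖ ^ 2) := by
    apply setIntegral_mono h1 ((h2.const_mul 2).add (h3.const_mul 2))
    intro t
    have h5 : ‖A t‖ ≤ ‖A' t‖ + ‖A t - A' t‖ := by
      have := norm_add_le (A' t) (A t - A' t)
      rwa [add_sub_cancel] at this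
    have h6 := norm_nonneg (A t)
    show ‖A t‖ ^ 2 ≤ 2 * ‖A' t‖ ^ 2 + 2 * ‖A t - A' t‖ ^ 2
    nlinarith [sq_nonneg (‖A' t‖ - ‖A t - A' t‖), norm_nonneg (A' t), norm_nonneg (A t - A' t)]
  refine h4.trans ?_
  rw [integral_add (h2.const_mul 2) (h3.const_mul 2), integral_const_mul, integral_const_mul]
  have h7 : ∫ t in U, ‖A t - A' t‖ ^ 2 ≤ ∫ t in (-T)..T, ‖A t - A' t‖ ^ 2 := by
    rw [intervalIntegral.integral_of_le (by linarith), ← integral_Icc_eq_integral_Ioc]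
    apply setIntegral_mono_set (hi _ (by fun_prop))
    · exact Filter.Eventually.of_forall fun t => by positivity
    · exact hUT.eventuallyLE
  linarith

theorem mr_inv {P Q A B : ℝ} (h : Q ≤ A) : Inv P Q (Hit A B) := by
  intro p n hp _ hpQ _
  constructor
  · rintro ⟨r, hr, hAr, hrB, hd⟩
    rcases (Nat.Prime.dvd_mul hr).1 hd with h1 | h1
    · rw [Nat.prime_dvd_prime_iff_eq hr hp] at h1
      subst h1
      exact absurd (hAr.trans_le hpQ) (not_lt.2 h)
    · exact ⟨r, hr, hAr, hrB, h1⟩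
  · rintro ⟨r, hr, hAr, hrB, hd⟩
    exact ⟨r, hr, hAr, hrB, Dvd.dvd.mul_left hd p⟩

theorem mr_Asc {η : ℝ} (h0 : 0 < η) (h4 : η ≤ 1 / 4) (j : ℕ) : 0 < Asc η j ∧ Asc η j ≤ 1 := by
  have h1 : (0 : ℝ) < (1 / 2) ^ j := by positivity
  have h2 : ((1 : ℝ) / 2) ^ j ≤ 1 := pow_le_one₀ (by norm_num) (by norm_num)
  unfold Asc
  constructor
  · apply mul_pos h0
    linarith
  · nlinarith

theorem mr_Z (L y zU zB : ℝ) (J' : ℕ) : ∃ Z₀ : ℝ, ∀ Z : ℝ, Z₀ ≤ Z → zU ≤ Z ∧ zB ≤ Z ∧ 3 ≤ Z ∧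
    L ^ 10 ≤ Z ∧ y ^ (20 ^ J') < (Real.log (Real.log Z)) ^ 2 ∧ L ^ 2 * Real.log Z ≤ Z := by
  have h1 : ∀ᶠ Z : ℝ in Filter.atTop, zU ≤ Z ∧ zB ≤ Z ∧ 3 ≤ Z ∧
      L ^ 10 ≤ Z ∧ y ^ (20 ^ J') < (Real.log (Real.log Z)) ^ 2 ∧ L ^ 2 * Real.log Z ≤ Z := by
    have ht : Filter.Tendsto (fun Z : ℝ => (Real.log (Real.log Z)) ^ 2) Filter.atTop
        Filter.atTop :=
      (Filter.tendsto_pow_atTop two_ne_zero).comp
        (Real.tendsto_log_atTop.comp Real.tendsto_log_atTop)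
    have hl : ∀ᶠ Z : ℝ in Filter.atTop, ‖Real.log Z‖ ≤ (1 / (L ^ 2 + 1)) * ‖id Z‖ :=
      Real.isLittleO_log_id_atTop.def (by positivity)
    filter_upwards [Filter.eventually_ge_atTop zU, Filter.eventually_ge_atTop zB,
      Filter.eventually_ge_atTop 3, Filter.eventually_ge_atTop (L ^ 10),
      ht.eventually_gt_atTop (y ^ (20 ^ J')), hl] with Z h1 h2 h3 h4 h5 h6
    refine ⟨h1, h2, h3, h4, h5, ?_⟩
    have hZ0 : (0 : ℝ) < Z := by linarith
    rw [id, Real.norm_eq_abs, Real.norm_eq_abs, abs_of_pos hZ0] at h6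
    have h7 := (le_abs_self (Real.log Z)).trans h6
    have h8 : L ^ 2 * Real.log Z ≤ L ^ 2 * (1 / (L ^ 2 + 1) * Z) :=
      mul_le_mul_of_nonneg_left h7 (by positivity)
    refine h8.trans ?_
    have h9 : L ^ 2 * (1 / (L ^ 2 + 1) * Z) = L ^ 2 / (L ^ 2 + 1) * Z := by ring
    rw [h9]
    have h10 : L ^ 2 / (L ^ 2 + 1) ≤ 1 := by
      rw [div_le_one (by positivity)]
      linarith
    nlinarith
  exact Filter.eventually_atTop.1 h1

theorem mr_L (K κ y₀ B : ℝ) (hK : 0 < K) (hκ : 0 < κ) : ∃ L₀ : ℝ, ∀ L : ℝ, L₀ ≤ L → 1 ≤ L ∧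
    y₀ ≤ Real.log L / (4 * K) ∧ 3 ≤ Real.log L / (4 * K) ∧ B ≤ L ^ (κ / 2) := by
  have ht : Filter.Tendsto (fun L : ℝ => Real.log L / (4 * K)) Filter.atTop Filter.atTop :=
    Real.tendsto_log_atTop.atTop_div_const (by positivity)
  have h1 : ∀ᶠ L : ℝ in Filter.atTop, 1 ≤ L ∧
      y₀ ≤ Real.log L / (4 * K) ∧ 3 ≤ Real.log L / (4 * K) ∧ B ≤ L ^ (κ / 2) := by
    filter_upwards [Filter.eventually_ge_atTop 1, ht.eventually_ge_atTop y₀,
      ht.eventually_ge_atTop 3,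
      (tendsto_rpow_atTop (by positivity : 0 < κ / 2)).eventually_ge_atTop B] with L h1 h2 h3 h4
    exact ⟨h1, h2, h3, h4⟩
  exact Filter.eventually_atTop.1 h1

theorem mr_twenty {L : ℝ} (hL : 1 ≤ L) : ((1 : ℝ) / 20) ^ (⌈Real.log L⌉₊ + 1) ≤ 1 / L := by
  have h1 : ((1 : ℝ) / 20) ^ (⌈Real.log L⌉₊ + 1) ≤ Real.exp (-1) ^ (⌈Real.log L⌉₊ + 1) := by
    apply pow_le_pow_left₀ (by norm_num)
    rw [Real.exp_neg, one_div]
    apply inv_anti₀ (Real.exp_pos 1)
    linarith [Real.exp_one_lt_d9]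
  refine h1.trans ?_
  rw [← Real.exp_nat_mul, one_div, ← Real.exp_log (by linarith : (0 : ℝ) < L), ← Real.exp_neg,
    Real.exp_log (by linarith : (0 : ℝ) < L)]
  apply Real.exp_le_exp.2
  have h2 := Nat.le_ceil (Real.log L)
  push_cast
  linarith

theorem st_MR (hMV : ST_MV) (hUM : ST_UM) (hD : ST_DENS) (hU : ST_U) (hCH : ST_CH)
    (hPA : ST_PA) (hPB : ST_PB) : ST_MR := by
  intro K θ₁ θ₂ hK hθ₁ hθ₁₂ hθ₂
  obtain ⟨CU, hCU, cU, hcU, hU'⟩ := hU
  obtain ⟨CV, hCV, hUM'⟩ := hUM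
  obtain ⟨CC, hCC, hCH'⟩ := hCH
  obtain ⟨CD, hCD, hdiff⟩ := mr_diff hMV hD
  have hK0 : 0 < K := by linarith
  set η := min (cU / 5) (1 / 4) with hη
  have hη0 : 0 < η := lt_min (by positivity) (by norm_num)
  have hη4 : η ≤ 1 / 4 := min_le_right _ _
  have hη5 : 5 * η ≤ cU := by
    have := min_le_left (cU / 5) (1 / 4)
    rw [← hη] at this
    linarith
  obtain ⟨y₀, hy₀⟩ := hPA K η hK hη0 hη4
  set κ := η / (16 * K) with hκ
  have hκ0 : 0 < κ := by positivity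
  have hκ1 : κ ≤ 1 := by
    rw [hκ, div_le_one (by positivity)]
    linarith
  set B := 8 * CC + CC + 2 * CC + 2 * (CU + 1) + 2 * CD with hB
  obtain ⟨L₀, hL₀⟩ := mr_L K κ y₀ B hK0 hκ0
  refine ⟨κ / 2, by positivity, L₀, ?_⟩
  intro L hL q χ hq
  obtain ⟨hL1, hyy, hy3, hBL⟩ := hL₀ L hL
  set y := Real.log L / (4 * K) with hy
  set J' := ⌈Real.log L⌉₊ + 1 with hJ'
  obtain ⟨zU, hzU⟩ := hU' q χ J' (Psc y) (Qsc K y) θ₁ θ₂ L (1 / L) hq hθ₁ hθ₁₂ hθ₂ hL1
    (by positivity)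
  obtain ⟨zB, hzB⟩ := hPB K η y θ₁ CV hK hη0 hη4 (by linarith) hθ₁ hCV
  obtain ⟨Z₀, hZ₀⟩ := mr_Z L y zU zB J'
  refine ⟨Z₀, ?_⟩
  intro Z X T hZ hZX hXZ hT hTX
  obtain ⟨hZU, hZB, hZ3, hZL, hZJ, hZlog⟩ := hZ₀ Z hZ
  obtain ⟨hA1, hA2, hA3, hA4⟩ := hy₀ y hyy
  obtain ⟨hB1, hB2, hB3, hB4⟩ := hzB Z hZB
  have hL0 : 0 < L := by linarith
  have hZ0 : 0 < Z := by linarith
  have hZ1 : 1 ≤ Z := by linarith
  set J := Jz y Z with hJ
  -- size of X
  have hZ9 : Z ^ (9 / 10 : ℝ) ≤ X := by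
    refine le_trans ?_ hZX
    rw [le_div_iff₀ hL0]
    have h1 : L ≤ Z ^ (1 / 10 : ℝ) := by
      have h2 : (L ^ 10) ^ (1 / 10 : ℝ) ≤ Z ^ (1 / 10 : ℝ) :=
        Real.rpow_le_rpow (by positivity) hZL (by norm_num)
      rw [← Real.rpow_natCast L 10, ← Real.rpow_mul hL0.le] at h2
      have e : ((10 : ℕ) : ℝ) * (1 / 10) = 1 := by norm_num
      rw [e, Real.rpow_one] at h2
      exact h2
    calc Z ^ (9 / 10 : ℝ) * L ≤ Z ^ (9 / 10 : ℝ) * Z ^ (1 / 10 : ℝ) :=
          mul_le_mul_of_nonneg_left h1 (by positivity)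
      _ = Z := by
          rw [← Real.rpow_add hZ0]
          norm_num
  have hX1 : 1 ≤ X := le_trans (Real.one_le_rpow hZ1 (by norm_num)) hZ9
  have hX0 : 0 < X := by linarith
  -- J' ≤ J
  have hJJ : J' < J := by
    by_contra hc
    rw [not_lt] at hc
    have h1 : y ^ (20 ^ J) ≤ y ^ (20 ^ J') :=
      pow_le_pow_right₀ (by linarith) (Nat.pow_le_pow_right (by norm_num) hc)
    have h2 : Real.log (Psc y J) = y ^ (20 ^ J) := by
      unfold Psc
      rw [Real.log_exp]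
    rw [h2] at hB1
    linarith
  have hQX : ∀ j ≤ J, Qsc K y j ^ 2 ≤ X := by
    intro j hj
    have h1 := hB2 j hj
    have hq0 : 0 ≤ Qsc K y j := by
      unfold Qsc
      split_ifs
      · positivity
      · positivity
    refine le_trans ?_ hZ9
    calc Qsc K y j ^ 2 ≤ (Z ^ θ₁) ^ 2 := pow_le_pow_left₀ hq0 h1 2
      _ = Z ^ (θ₁ * 2) := by
          rw [← Real.rpow_natCast, ← Real.rpow_mul hZ0.le]
          norm_num
      _ ≤ Z ^ (9 / 10 : ℝ) := Real.rpow_le_rpow_of_exponent_le hZ1 (by linarith)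
  have hP2 : ∀ j, 2 ≤ Psc y j := by
    intro j
    have h1 := (hA1 j).1
    unfold Psc at h1 ⊢
    rw [Real.log_exp] at h1
    have h2 := Real.add_one_le_exp (y ^ (20 ^ j))
    linarith
  -- the chain
  have hchain := hCH' (Psc y) (Qsc K y) (Hsc η y) (Asc η) J X T (lch χ)
    (Hit (Z ^ θ₁) (Z ^ θ₂)) (Real.exp_pos _) (fun j _ => ⟨(hA1 j).1, (hA1 j).2.1, (hA1 j).2.2.1⟩)
    (fun j _ => ⟨(hA1 j).2.2.2.1, (hA1 j).2.2.2.2.1, (hA1 j).2.2.2.2.2.2⟩)
    (mr_Asc hη0 hη4 0).1 (mr_Asc hη0 hη4 J).2 hX1 hT (mr_CM χ)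
    (fun j hj => mr_inv (hB2 j hj))
  -- sizes
  set ε := L ^ (-κ) with hε
  have hε0 : 0 < ε := by positivity
  have heε : Real.exp (-(η * y / 4)) = ε := by
    rw [hε, Real.rpow_def_of_pos hL0, hκ, hy]
    congr 1
    field_simp
    ring
  have hLε : 1 / L ≤ ε := by
    rw [hε, one_div, ← Real.rpow_neg_one]
    exact Real.rpow_le_rpow_of_exponent_le hL1 (by linarith)
  have hQ0 : Qsc K y 0 = L ^ (1 / 4 : ℝ) := by
    unfold Qsc
    rw [if_pos rfl, Real.rpow_def_of_pos hL0, hy]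
    congr 1
    field_simp
  rw [heε] at hA2 hA3 hA4
  have hTX2 : T / X + 1 ≤ 2 := by
    have : T / X ≤ 1 := (div_le_one hX0).2 hTX
    linarith
  have hTX0 : 0 ≤ T / X + 1 := by positivity
  set R := T * L ^ (1 / 4 : ℝ) / X + 1 with hR
  have hR1 : 1 ≤ R := by
    rw [hR]
    have : 0 ≤ T * L ^ (1 / 4 : ℝ) / X := by positivity
    linarith
  -- first term
  have t1 : CC * (T / X + 1) * ∑ j ∈ range (J + 1), (1 / Hsc η y j + 1 / Psc y j + 1 / X)
      ≤ 8 * CC * ε := by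
    have h1 : ∑ j ∈ range (J + 1), (1 / Hsc η y j + 1 / Psc y j + 1 / X) ≤ 4 * ε := by
      rw [Finset.sum_add_distrib, Finset.sum_const, Finset.card_range, nsmul_eq_mul]
      have h2 := hA3 J
      have h3 : ((J + 1 : ℕ) : ℝ) * (1 / X) ≤ 1 / L := by
        have h4 : ((J + 1 : ℕ) : ℝ) ≤ Real.log Z := by push_cast; exact hB3
        have h5 : 1 / X ≤ L / Z := by
          rw [div_le_div_iff₀ hX0 hZ0]
          rw [div_le_iff₀ hL0] at hZX
          linarith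
        have hlogZ : 0 ≤ Real.log Z := Real.log_nonneg hZ1
        calc ((J + 1 : ℕ) : ℝ) * (1 / X) ≤ Real.log Z * (L / Z) :=
              mul_le_mul h4 h5 (by positivity) hlogZ
          _ ≤ 1 / L := by
              rw [mul_div_assoc', div_le_div_iff₀ hZ0 hL0]
              have e : Real.log Z * L * L = L ^ 2 * Real.log Z := by ring
              rw [e, one_mul]
              exact hZlog
      linarith
    have h6 : 0 ≤ ∑ j ∈ range (J + 1), (1 / Hsc η y j + 1 / Psc y j + 1 / X) := by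
      apply Finset.sum_nonneg
      intro j _
      have h7 := (hA1 j).2.2.1
      have h8 := hP2 j
      positivity
    calc CC * (T / X + 1) * ∑ j ∈ range (J + 1), (1 / Hsc η y j + 1 / Psc y j + 1 / X)
        ≤ CC * 2 * (4 * ε) := by
          apply mul_le_mul _ h1 h6 (by positivity)
          exact mul_le_mul_of_nonneg_left hTX2 hCC.le
      _ = 8 * CC * ε := by ring
  -- second term
  have t2 : CC * (Hsc η y 0 * Real.log (Qsc K y 0) + 1) ^ 2 * (Psc y 0) ^ (-(2 * Asc η 0)) *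
      (T * Qsc K y 0 / X + 1) ≤ CC * ε * R := by
    rw [hQ0, ← hR, ← hQ0, mul_assoc CC]
    apply mul_le_mul_of_nonneg_right _ (by linarith)
    exact mul_le_mul_of_nonneg_left hA2 hCC.le
  -- third term
  have t3 : CC * (T / X + 1) * ∑ j ∈ range J,
      (Hsc η y (j + 1) * Real.log (Qsc K y (j + 1)) + 1) ^ 2 *
      (Hsc η y j * Real.log (Qsc K y j) + 1) *
      Real.exp (-((Asc η (j + 1) - Asc η j) * Real.log (Psc y (j + 1))) +
        2 * Asc η j * Real.log (Qsc K y j) +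
        2 * Real.log (Real.log (Qsc K y (j + 1)))) ≤ 2 * CC * ε := by
    calc _ ≤ CC * (T / X + 1) * ε := mul_le_mul_of_nonneg_left (hA4 J) (by positivity)
      _ ≤ CC * 2 * ε := by
          apply mul_le_mul_of_nonneg_right _ hε0.le
          exact mul_le_mul_of_nonneg_left hTX2 hCC.le
      _ = 2 * CC * ε := by ring
  -- the last term
  have hUm := mr_meas (Psc y J) (Qsc K y J) (Hsc η y J) (lch χ) (Asc η J) T
  have hUs : {t | t ∈ Set.Icc (-T) T ∧ ¬ Small (Psc y J) (Qsc K y J) (Hsc η y J) (lch χ)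
      (Asc η J) t} ⊆ Set.Icc (-T) T := fun t ht => ht.1
  have hvol := hUM' (Psc y J) (Qsc K y J) (Hsc η y J) (Asc η J) Z T (lch χ) (Real.exp_pos _)
    (hA1 J).1 (hA1 J).2.1 (hA1 J).2.2.1 (mr_Asc hη0 hη4 J).1 (mr_Asc hη0 hη4 J).2 (mr_CM χ).2.2 hT
    (hTX.trans hXZ) hZ3
  have hvol2 := hvol.trans (hB4.trans (Real.rpow_le_rpow_of_exponent_le hZ1 hη5))
  have hUU := hzU Z X T _ hZU hZ9 hXZ hT hTX hUm hUs hvol2
  have hdd := hdiff K y X T J' J (Hit (Z ^ θ₁) (Z ^ θ₂)) (lch χ) (mr_CM χ).2.2 hy3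
    (by rw [hJ']; omega) (by omega) hX1 hT hTX
    (fun j hj => ⟨hP2 j, (hA1 j).2.1, hQX j hj⟩)
  have hsp := mr_split
    (DP (IocN X (2 * X)) (res (fun n => (∀ j ∈ range (J + 1), Hit (Psc y j) (Qsc K y j) n) ∧
      Hit (Z ^ θ₁) (Z ^ θ₂) n) (lch χ)))
    (DP (IocN X (2 * X)) (res (fun n => (∀ j ∈ range J', Hit (Psc y j) (Qsc K y j) n) ∧
      Hit (Z ^ θ₁) (Z ^ θ₂) n) (lch χ)))
    (mr_DP_cont _ _) (mr_DP_cont _ _) _ T (by linarith) hUs
  have t4 : ∫ t in {t | t ∈ Set.Icc (-T) T ∧ ¬ Small (Psc y J) (Qsc K y J) (Hsc η y J)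
      (lch χ) (Asc η J) t}, ‖DP (IocN X (2 * X)) (res (fun n => (∀ j ∈ range (J + 1),
        Hit (Psc y j) (Qsc K y j) n) ∧ Hit (Z ^ θ₁) (Z ^ θ₂) n) (lch χ)) t‖ ^ 2
      ≤ (2 * (CU + 1) + 2 * CD) * ε := by
    refine hsp.trans ?_
    have h20 := mr_twenty hL1
    rw [← hJ'] at h20
    have h21 : CU / L + 1 / L ≤ (CU + 1) * ε := by
      rw [← add_div, div_eq_mul_one_div]
      exact mul_le_mul_of_nonneg_left hLε (by positivity)
    have h22 : CD * (1 / 20) ^ J' ≤ CD * ε :=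
      mul_le_mul_of_nonneg_left (h20.trans hLε) hCD.le
    have h23 := hUU.trans h21
    have h24 := hdd.trans h22
    calc _ ≤ 2 * ((CU + 1) * ε) + 2 * (CD * ε) := by
          apply add_le_add
          · exact mul_le_mul_of_nonneg_left h23 (by norm_num)
          · exact mul_le_mul_of_nonneg_left h24 (by norm_num)
      _ = (2 * (CU + 1) + 2 * CD) * ε := by ring
  have htot : ∫ t in (-T)..T,
      ‖DP (IocN X (2 * X)) (res (SS K y θ₁ θ₂ Z) (lch χ)) t‖ ^ 2 ≤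
      8 * CC * ε + CC * ε * R + 2 * CC * ε + (2 * (CU + 1) + 2 * CD) * ε := by
    refine le_trans hchain ?_
    exact add_le_add (add_le_add (add_le_add t1 t2) t3) t4
  refine htot.trans ?_
  have hb0 : 0 ≤ 8 * CC * ε + 2 * CC * ε + (2 * (CU + 1) + 2 * CD) * ε := by positivity
  calc 8 * CC * ε + CC * ε * R + 2 * CC * ε + (2 * (CU + 1) + 2 * CD) * ε
      ≤ B * ε * R := by
        have h1 := mul_le_mul_of_nonneg_left hR1 hb0
        rw [hB]
        linarith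
    _ ≤ L ^ (κ / 2) * ε * R := by
        apply mul_le_mul_of_nonneg_right _ (by linarith)
        exact mul_le_mul_of_nonneg_right hBL hε0.le
    _ = R * L ^ (-(κ / 2)) := by
        rw [hε, ← Real.rpow_add hL0, mul_comm]
        congr 2
        ring

end Pool.Agent.Helper40.MR
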